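import Pool.Agent.N44.FA.Stm

/-!
# The central idempotents (FA/IDEM)
-/

set_option autoImplicit false

namespace Pool.Agent.N711.FA.IDEM

open Pool.Agent.N44.FA

section pm

variable {O : Type} [DecidableEq O] [Fintype O]

lemma pm_apply (f : O → O) (P : O → Bool) (a b : O) :
    pm f P a b = if P b = true ∧ a = f b then 1 else 0 := rfl

lemma pm_mul (f g : O → O) (P Q : O → Bool) :
    pm f P * pm g Q = pm (f ∘ g) (fun b => Q b && P (g b)) := by
  ext a b
  rw [Matrix.mul_apply, Finset.sum_eq_single (g b)]
  · rw [pm_apply, pm_apply, pm_apply]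
    by_cases hQ : Q b = true <;> by_cases hP : P (g b) = true <;>
      by_cases ha : a = f (g b) <;> simp [hQ, hP, ha]
  · intro c _ hc
    rw [pm_apply g Q, if_neg (fun h => hc h.2), mul_zero]
  · intro h
    exact absurd (Finset.mem_univ _) h

lemma pm_congr {f g : O → O} {P Q : O → Bool} (h1 : ∀ b, P b = Q b)
    (h2 : ∀ b, P b = true → f b = g b) : pm f P = pm g Q := by
  ext a b
  rw [pm_apply, pm_apply, ← h1]
  by_cases hP : P b = true
  · rw [h2 b hP]
  · rw [if_neg (fun h => hP h.1), if_neg (fun h => hP h.1)]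

lemma pm_one : pm (fun b : O => b) (fun _ => true) = 1 := by
  ext a b
  rw [pm_apply, Matrix.one_apply]
  simp

end pm

variable (k : ℕ)

lemma sh_mul : sh k * sh' k = 1 := by
  unfold sh sh'
  rw [pm_mul, ← pm_one]
  refine pm_congr (fun b => rfl) fun b _ => ?_
  funext i
  simp only [Function.comp, sub_add_cancel]

lemma sh'_mul : sh' k * sh k = 1 := by
  unfold sh sh'
  rw [pm_mul, ← pm_one]
  refine pm_congr (fun b => rfl) fun b _ => ?_
  funext i
  simp only [Function.comp, add_sub_cancel_right]

/-- (2) -/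
lemma sh_xx (j : ZMod (k + 1)) : sh k * xx k j * sh' k = xx k (j + 1) := by
  unfold sh sh' xx
  rw [pm_mul, pm_mul]
  refine pm_congr (fun b => ?_) fun b _ => ?_
  · simp
  · funext i
    simp only [Function.comp]
    by_cases h : i = j + 1
    · rw [h, Function.update_self, add_sub_cancel_right, Function.update_self]
    · rw [Function.update_of_ne h, Function.update_of_ne (fun h' => h (by rw [← h']; ring)),
        sub_add_cancel]

/-- (2), powers -/
lemma sh_pow_xx (m : ℕ) : sh k ^ m * xx k 0 * sh' k ^ m = xx k (m : ZMod (k + 1)) := by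
  induction m with
  | zero => simp
  | succ m ih =>
    rw [pow_succ', pow_succ, Nat.cast_succ, ← sh_xx, ← ih]
    simp only [mul_assoc]

/-- (3) -/
lemma xx_yy (j : ZMod (k + 1)) (hj : j ≠ 0) : xx k j * yy k 0 = yy k 0 * xx k j := by
  unfold xx yy
  rw [pm_mul, pm_mul]
  refine pm_congr (fun b => ?_) fun b _ => ?_
  · rw [Function.update_of_ne hj, Function.update_of_ne hj.symm, Bool.and_comm]
  · simp only [Function.comp]
    exact (Function.update_comm hj.symm _ _ _)

/-- (3), the same place -/
lemma xx_yy_zero : xx k 0 * yy k 0 + yy k 0 * xx k 0 = 1 := by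
  unfold xx yy
  rw [pm_mul, pm_mul]
  ext a b
  rw [Matrix.add_apply, pm_apply, pm_apply, Matrix.one_apply]
  simp only [Function.comp, Function.update_self, Function.update_idem, decide_true,
    Bool.and_true, decide_eq_true_eq]
  have h01 : ∀ z : ZMod 2, z = 0 ∨ z = 1 := by decide
  have hne : (0 : ZMod 2) ≠ 1 := by decide
  rcases h01 (b 0) with h | h
  · have e1 : Function.update b 0 0 = b := by
      rw [← h]; exact Function.update_eq_self _ _
    rw [e1, h]
    simp [hne]
  · have e1 : Function.update b 0 1 = b := by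
      rw [← h]; exact Function.update_eq_self _ _
    rw [e1, h]
    simp [hne.symm]

lemma add_self (A : Mt k) : A + A = 0 := by
  ext a b
  rw [Matrix.add_apply, Matrix.zero_apply]
  exact CharTwo.add_self_eq_zero _

/-- the elements `S ^ m X S' ^ m Y + Y S ^ m X S' ^ m` -/
noncomputable def cm (m : ℕ) : ∀ k, Mt k :=
  sh ^ m * (fun k => xx k 0) * sh' ^ m * (fun k => yy k 0) +
    (fun k => yy k 0) * (sh ^ m * (fun k => xx k 0) * sh' ^ m)

lemma X_mem : (fun k => xx k 0 : ∀ k, Mt k) ∈ R := Algebra.subset_adjoin (by simp)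

lemma Y_mem : (fun k => yy k 0 : ∀ k, Mt k) ∈ R := Algebra.subset_adjoin (by simp)

lemma S_mem : (sh : ∀ k, Mt k) ∈ R := Algebra.subset_adjoin (by simp)

lemma S'_mem : (sh' : ∀ k, Mt k) ∈ R := Algebra.subset_adjoin (by simp)

/-- (4), membership -/
lemma cm_mem (m : ℕ) : cm m ∈ R := by
  have h1 : sh ^ m * (fun k => xx k 0) * sh' ^ m ∈ R :=
    R.mul_mem (R.mul_mem (R.pow_mem S_mem m) X_mem) (R.pow_mem S'_mem m)
  exact R.add_mem (R.mul_mem h1 Y_mem) (R.mul_mem Y_mem h1)

/-- (4), the values -/
lemma cm_apply (m : ℕ) : cm m k = if (m : ZMod (k + 1)) = 0 then 1 else 0 := by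
  have h1 : cm m k = sh k ^ m * xx k 0 * sh' k ^ m * yy k 0 +
      yy k 0 * (sh k ^ m * xx k 0 * sh' k ^ m) := rfl
  rw [h1, sh_pow_xx]
  split_ifs with h
  · rw [h]
    exact xx_yy_zero k
  · rw [xx_yy k _ h]
    exact add_self k _

lemma cm_apply' (m : ℕ) : cm m k = if k + 1 ∣ m then 1 else 0 := by
  rw [cm_apply]
  simp only [ZMod.natCast_eq_zero_iff]

theorem t_idem : S_IDEM := by
  intro k
  induction k using Nat.strong_induction_on with
  | _ k ih =>
    have h1 : (Pi.single k (1 : Mt k) : ∀ k, Mt k) = cm (k + 1) -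
        ∑ j ∈ (Finset.range k).filter (fun j => j + 1 ∣ k + 1),
          (Pi.single j (1 : Mt j) : ∀ k, Mt k) := by
      funext l
      rw [Pi.sub_apply, Finset.sum_apply, cm_apply']
      by_cases hl : l ∈ (Finset.range k).filter (fun j => j + 1 ∣ k + 1)
      · rw [Finset.sum_eq_single l]
        · rw [Finset.mem_filter, Finset.mem_range] at hl
          rw [if_pos hl.2, Pi.single_eq_same, sub_self, Pi.single_eq_of_ne (by omega)]
        · intro j _ hj
          exact Pi.single_eq_of_ne hj.symm _
        · intro h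
          exact absurd hl h
      · rw [Finset.sum_eq_zero]
        · rw [sub_zero]
          rw [Finset.mem_filter, Finset.mem_range] at hl
          by_cases hlk : l = k
          · subst hlk
            rw [Pi.single_eq_same, if_pos (dvd_refl _)]
          · rw [Pi.single_eq_of_ne hlk, if_neg]
            intro hd
            have := Nat.le_of_dvd (Nat.succ_pos _) hd
            exact hl ⟨by omega, hd⟩
        · intro j hj
          refine Pi.single_eq_of_ne ?_ _
          rintro rfl
          exact hl hj
    rw [h1]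
    refine R.sub_mem (cm_mem _) (R.sum_mem fun j hj => ?_)
    rw [Finset.mem_filter, Finset.mem_range] at hj
    exact ih j hj.1

end Pool.Agent.N711.FA.IDEM
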